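import Pool.Agent.X108.DS.Mom

/-!
# Moments of zeta along arithmetic progressions
-/

set_option autoImplicit false

namespace Pool.Agent.X108.DS

open Finset Complex
open Pool.Agent.TH612.GS (z)
open Pool.Agent.X108.HB (WS)

lemma row (g : ℕ → ℝ) (hg : ∀ n, 0 ≤ g n) (J i : ℕ) (hi : i < J) :
    ∑ j ∈ (range J).erase i, g (max i j - min i j) ≤ 2 * ∑ h ∈ Icc 1 (J - 1), g h := by
  classical
  have e := sum_filter_add_sum_filter_not ((range J).erase i) (fun j => i < j)
    (fun j => g (max i j - min i j))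
  have h1 : ∑ j ∈ ((range J).erase i).filter (fun j => i < j), g (max i j - min i j) ≤
      ∑ h ∈ Icc 1 (J - 1), g h := by
    have e1 : ∑ j ∈ ((range J).erase i).filter (fun j => i < j), g (max i j - min i j) =
        ∑ h ∈ (((range J).erase i).filter (fun j => i < j)).image (fun j => j - i), g h := by
      rw [sum_image]
      · refine sum_congr rfl fun j hj => ?_
        rw [mem_filter] at hj
        rw [max_eq_right hj.2.le, min_eq_left hj.2.le]
      · intro a ha b hb hab
        simp only [coe_filter, mem_erase, mem_range, Set.mem_setOf_eq] at ha hb hab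
        omega
    rw [e1]
    refine sum_le_sum_of_subset_of_nonneg ?_ fun _ _ _ => hg _
    intro h hh
    rw [mem_image] at hh
    obtain ⟨j, hj, rfl⟩ := hh
    rw [mem_filter, mem_erase, mem_range] at hj
    rw [mem_Icc]
    omega
  have h2 : ∑ j ∈ ((range J).erase i).filter (fun j => ¬ i < j), g (max i j - min i j) ≤
      ∑ h ∈ Icc 1 (J - 1), g h := by
    have e1 : ∑ j ∈ ((range J).erase i).filter (fun j => ¬ i < j), g (max i j - min i j) =
        ∑ h ∈ (((range J).erase i).filter (fun j => ¬ i < j)).image (fun j => i - j), g h := by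
      rw [sum_image]
      · refine sum_congr rfl fun j hj => ?_
        rw [mem_filter] at hj
        have := not_lt.1 hj.2
        rw [max_eq_left this, min_eq_right this]
      · intro a ha b hb hab
        simp only [coe_filter, mem_erase, mem_range, Set.mem_setOf_eq] at ha hb hab
        omega
    rw [e1]
    refine sum_le_sum_of_subset_of_nonneg ?_ fun _ _ _ => hg _
    intro h hh
    rw [mem_image] at hh
    obtain ⟨j, hj, rfl⟩ := hh
    rw [mem_filter, mem_erase, mem_range] at hj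
    rw [mem_Icc]
    omega
  linarith

theorem ap (k : ℕ) (hk : 1 ≤ k) {δ : ℝ} (hδ : 0 < δ) : ∃ c : ℝ, 0 < c ∧ ∃ T₀ : ℝ, 1 ≤ T₀ ∧
    ∀ (J : ℕ) (Δ : ℝ), 1 ≤ Δ → T₀ ≤ J * Δ → ((J : ℝ) * Δ) ^ (1 / 2 + δ) ≤ J →
    c * J * Real.log (J * Δ) ^ (k ^ 2) ≤
      ∑ h ∈ Icc 1 (J - 1), ‖z ((h : ℝ) * Δ)‖ ^ (2 * k) := by
  classical
  obtain ⟨c, hc, T₀, hT₀, h⟩ := moments k hk hδ
  refine ⟨c / 2, by positivity, T₀, hT₀, ?_⟩
  intro J Δ hΔ hJ hJ2
  have hΔ0 : 0 < Δ := by linarith
  have hJ0 : (0 : ℝ) < J := by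
    by_contra hcon
    have : (J : ℝ) ≤ 0 := not_lt.1 hcon
    nlinarith
  set S : Finset ℝ := (range J).image (fun j : ℕ => (j : ℝ) * Δ) with hS
  have hinj : Function.Injective (fun j : ℕ => (j : ℝ) * Δ) := by
    intro a b hab
    have : (a : ℝ) = b := mul_right_cancel₀ hΔ0.ne' hab
    exact_mod_cast this
  have hcard : S.card = J := by rw [hS, card_image_of_injective _ hinj, card_range]
  have hWS : WS S 0 (J * Δ) := by
    constructor
    · intro t ht u hu htu
      rw [hS, mem_image] at ht hu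
      obtain ⟨i, _, rfl⟩ := ht
      obtain ⟨j, _, rfl⟩ := hu
      have hij : (i : ℤ) ≠ j := by
        intro hh
        have : i = j := by exact_mod_cast hh
        rw [this] at htu
        exact htu rfl
      have h1 : (1 : ℝ) ≤ |(i : ℝ) - j| := by
        have : (1 : ℤ) ≤ |(i : ℤ) - j| := Int.one_le_abs (sub_ne_zero.2 hij)
        exact_mod_cast this
      rw [← sub_mul, abs_mul, abs_of_pos hΔ0]
      nlinarith
    · intro t ht
      rw [hS, mem_image] at ht
      obtain ⟨i, hi, rfl⟩ := ht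
      rw [mem_range] at hi
      have h0 : (0 : ℝ) ≤ i := i.cast_nonneg
      have h1 : (i : ℝ) ≤ J := by exact_mod_cast hi.le
      constructor
      · positivity
      · rw [zero_add]; gcongr
  have key := h (J * Δ) hJ S 0 hWS (by rw [hcard]; exact hJ2)
  rw [hcard] at key
  set g : ℕ → ℝ := fun n => ‖z ((n : ℝ) * Δ)‖ ^ (2 * k) with hg
  have hg0 : ∀ n, 0 ≤ g n := fun n => by rw [hg]; positivity
  have hz : ∀ i j : ℕ, ‖z ((i : ℝ) * Δ - (j : ℝ) * Δ)‖ ^ (2 * k) = g (max i j - min i j) := by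
    intro i j
    rw [hg]
    simp only
    rcases le_total i j with hij | hij
    · rw [max_eq_right hij, min_eq_left hij, Nat.cast_sub hij]
      have : (i : ℝ) * Δ - (j : ℝ) * Δ = -(((j : ℝ) - i) * Δ) := by ring
      rw [this, z_neg, RCLike.norm_conj]
    · rw [max_eq_left hij, min_eq_right hij, Nat.cast_sub hij]
      rw [← sub_mul]
  have hoff : ∑ p ∈ S.offDiag, ‖z (p.1 - p.2)‖ ^ (2 * k) =
      ∑ i ∈ range J, ∑ j ∈ (range J).erase i, g (max i j - min i j) := by
    rw [off_eq S (fun t t' => ‖z (t - t')‖ ^ (2 * k)), hS, sum_image (fun a _ b _ hab => hinj hab)]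
    refine sum_congr rfl fun i hi => ?_
    rw [← image_erase hinj, sum_image (fun a _ b _ hab => hinj hab)]
    exact sum_congr rfl fun j _ => hz i j
  rw [hoff] at key
  have hrow : ∑ i ∈ range J, ∑ j ∈ (range J).erase i, g (max i j - min i j) ≤
      ∑ i ∈ range J, 2 * ∑ h ∈ Icc 1 (J - 1), g h :=
    sum_le_sum fun i hi => row g hg0 J i (mem_range.1 hi)
  rw [sum_const, card_range, nsmul_eq_mul] at hrow
  have h3 := key.trans hrow
  have h4 : (J : ℝ) * (c / 2 * J * Real.log (J * Δ) ^ (k ^ 2)) ≤ J * ∑ h ∈ Icc 1 (J - 1), g h := by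
    have e : c * (J : ℝ) ^ 2 * Real.log (J * Δ) ^ (k ^ 2) =
      2 * ((J : ℝ) * (c / 2 * J * Real.log (J * Δ) ^ (k ^ 2))) := by ring
    linarith
  exact le_of_mul_le_mul_left h4 hJ0

end Pool.Agent.X108.DS
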