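import Pool.Agent.X108.DS.Pos

/-!
# The weighted number of solutions of `n_1 ⋯ n_k = m_1 ⋯ m_k`
-/

set_option autoImplicit false

namespace Pool.Agent.X108.DS

open Finset

/-- numbers up to `y` coprime to `q` -/
def EE (q y : ℕ) : Finset ℕ := (Icc 1 y).filter (fun a => Nat.Coprime a q)

lemma mem_EE {q y a : ℕ} : a ∈ EE q y ↔ (1 ≤ a ∧ a ≤ y) ∧ Nat.Coprime a q := by
  unfold EE
  rw [mem_filter, mem_Icc]

noncomputable def UU (q y : ℕ) : ℝ := ∑ a ∈ EE q y, 1 / (a : ℝ)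

lemma UU_nonneg (q y : ℕ) : 0 ≤ UU q y := sum_nonneg fun _ _ => by positivity

lemma UU_dvd (q y r : ℕ) (hr : 1 ≤ r) :
    ∑ a ∈ (EE q y).filter (fun a => r ∣ a), 1 / (a : ℝ) ≤ UU q y / r := by
  have e : (EE q y).filter (fun a => r ∣ a) ⊆ (EE q y).image (fun b => r * b) := by
    intro a ha
    rw [mem_filter, mem_EE] at ha
    obtain ⟨⟨⟨h1, h2⟩, h3⟩, b, rfl⟩ := ha
    rw [mem_image]
    refine ⟨b, ?_, rfl⟩
    rw [mem_EE]
    refine ⟨⟨?_, ?_⟩, Nat.Coprime.coprime_mul_left h3⟩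
    · rcases Nat.eq_zero_or_pos b with h | h
      · rw [h, mul_zero] at h1; omega
      · exact h
    · exact (Nat.le_mul_of_pos_left b hr).trans h2
  calc ∑ a ∈ (EE q y).filter (fun a => r ∣ a), 1 / (a : ℝ) ≤
        ∑ a ∈ (EE q y).image (fun b => r * b), 1 / (a : ℝ) :=
        sum_le_sum_of_subset_of_nonneg e fun _ _ _ => by positivity
    _ = ∑ b ∈ EE q y, 1 / ((r * b : ℕ) : ℝ) := by
        rw [sum_image]
        intro a _ b _ hab
        exact Nat.eq_of_mul_eq_mul_left hr hab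
    _ = UU q y / r := by
        unfold UU
        rw [sum_div]
        refine sum_congr rfl fun b _ => ?_
        push_cast
        rw [div_div, mul_comm]

lemma UU_lower {q y : ℕ} (hq : 1 ≤ q) (hy : q ^ 2 ≤ y) :
    Real.log y / (2 * q) ≤ UU q y := by
  have hy1 : 1 ≤ y := le_trans (Nat.one_le_pow _ _ hq) hy
  have hq0 : (0 : ℝ) < q := by exact_mod_cast hq
  have hy0 : (0 : ℝ) < y := by exact_mod_cast hy1
  obtain ⟨m, hm⟩ : ∃ m : ℕ, m = (y - 1) / q := ⟨_, rfl⟩
  have hm1 : m * q ≤ y - 1 := by rw [hm]; exact Nat.div_mul_le_self _ _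
  have hm2 : y ≤ (m + 1) * q := by
    have := Nat.lt_succ_iff.1 (Nat.lt_succ_of_le (le_refl y))
    have h2 := Nat.div_add_mod (y - 1) q
    have h3 := Nat.mod_lt (y - 1) hq
    rw [← hm] at h2
    have h4 : q * m = m * q := mul_comm _ _
    have h5 : (m + 1) * q = m * q + q := by ring
    omega
  have e : (range (m + 1)).image (fun j => 1 + j * q) ⊆ EE q y := by
    intro a ha
    rw [mem_image] at ha
    obtain ⟨j, hj, rfl⟩ := ha
    rw [mem_range] at hj
    rw [mem_EE]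
    refine ⟨⟨by omega, ?_⟩, ?_⟩
    · have : j * q ≤ m * q := Nat.mul_le_mul_right _ (by omega)
      omega
    · have : Nat.Coprime (1 + j * q) q := by
        rw [Nat.coprime_add_mul_right_left]
        exact Nat.coprime_one_left _
      exact this
  have h1 : Real.log (y / q) / q ≤ ∑ j ∈ range (m + 1), 1 / ((1 + j * q : ℕ) : ℝ) := by
    have g1 : Real.log ((m + 1 + 1 : ℕ) : ℝ) ≤ ((harmonic (m + 1) : ℚ) : ℝ) := log_add_one_le_harmonic (m + 1)
    have g2 : ((harmonic (m + 1) : ℚ) : ℝ) = ∑ j ∈ range (m + 1), 1 / ((j : ℝ) + 1) := by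
      rw [harmonic]
      push_cast
      simp only [one_div]
    have g3 : Real.log (y / q) ≤ Real.log ((m + 1 + 1 : ℕ) : ℝ) := by
      apply Real.log_le_log (by positivity)
      rw [div_le_iff₀ hq0]
      have : (y : ℝ) ≤ ((m + 1) * q : ℕ) := by exact_mod_cast hm2
      push_cast at this ⊢
      nlinarith
    rw [div_le_iff₀ hq0, sum_mul]
    refine g3.trans (g1.trans ?_)
    rw [g2]
    refine sum_le_sum fun j _ => ?_
    have hq1 : (1 : ℝ) ≤ q := by exact_mod_cast hq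
    have hj : (0 : ℝ) ≤ j := j.cast_nonneg
    push_cast
    rw [div_mul_eq_mul_div, one_mul, div_le_div_iff₀ (by positivity) (by positivity)]
    nlinarith
  have h2 : ∑ j ∈ range (m + 1), 1 / ((1 + j * q : ℕ) : ℝ) ≤ UU q y := by
    unfold UU
    refine le_trans (le_of_eq ?_) (sum_le_sum_of_subset_of_nonneg e fun _ _ _ => by positivity)
    rw [sum_image]
    intro a _ b _ hab
    have : a * q = b * q := by
      simp only at hab
      omega
    exact Nat.eq_of_mul_eq_mul_right hq this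
  have h3 : Real.log y / 2 ≤ Real.log (y / q) := by
    rw [Real.log_div hy0.ne' hq0.ne']
    have : Real.log ((q : ℝ) ^ 2) ≤ Real.log y := by
      apply Real.log_le_log (by positivity)
      exact_mod_cast hy
    rw [Real.log_pow] at this
    push_cast at this
    linarith
  calc Real.log y / (2 * q) = Real.log y / 2 / q := by rw [div_div]
    _ ≤ Real.log (y / q) / q := by gcongr
    _ ≤ _ := h1.trans h2

/-- pairwise coprime -/
def Cop {k : ℕ} (a : Fin k × Fin k → ℕ) : Prop := ∀ p q, p ≠ q → Nat.Coprime (a p) (a q)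

lemma gcd_rc {k : ℕ} {a : Fin k × Fin k → ℕ} (h : Cop a) (i j : Fin k) :
    Nat.gcd (∏ j', a (i, j')) (∏ i', a (i', j)) = a (i, j) := by
  classical
  have e1 : ∏ j', a (i, j') = a (i, j) * ∏ j' ∈ univ.erase j, a (i, j') :=
    (mul_prod_erase univ (fun j' => a (i, j')) (mem_univ j)).symm
  have e2 : ∏ i', a (i', j) = a (i, j) * ∏ i' ∈ univ.erase i, a (i', j) :=
    (mul_prod_erase univ (fun i' => a (i', j)) (mem_univ i)).symm
  rw [e1, e2, Nat.gcd_mul_left]
  have : Nat.Coprime (∏ j' ∈ univ.erase j, a (i, j')) (∏ i' ∈ univ.erase i, a (i', j)) := by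
    apply Nat.Coprime.prod_left
    intro j' hj'
    apply Nat.Coprime.prod_right
    intro i' _
    apply h
    intro hh
    rw [Prod.mk.injEq] at hh
    exact (ne_of_mem_erase hj') hh.2
  rw [this, mul_one]

/-- the matrices -/
def MM (k q y : ℕ) : Finset (Fin k × Fin k → ℕ) := Fintype.piFinset (fun _ => EE q y)

lemma mem_MM {k q y : ℕ} {a : Fin k × Fin k → ℕ} : a ∈ MM k q y ↔ ∀ p, a p ∈ EE q y := by
  unfold MM; rw [Fintype.mem_piFinset]

lemma MM_sum (k q y : ℕ) : ∑ a ∈ MM k q y, ∏ p, 1 / (a p : ℝ) = UU q y ^ (k ^ 2) := by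
  unfold MM UU
  rw [(prod_univ_sum (fun _ : Fin k × Fin k => EE q y) (fun _ (a : ℕ) => 1 / (a : ℝ))).symm,
    prod_const, card_univ, Fintype.card_prod, Fintype.card_fin, pow_two]

lemma MM_bad (k q y r : ℕ) (hr : 1 ≤ r) (p p' : Fin k × Fin k) (hp : p ≠ p') :
    ∑ a ∈ (MM k q y).filter (fun a => r ∣ a p ∧ r ∣ a p'), ∏ s, 1 / (a s : ℝ) ≤
      UU q y ^ (k ^ 2) * (1 / (r : ℝ) ^ 2) := by
  classical
  have hr0 : (0 : ℝ) < r := by exact_mod_cast hr
  have e : (MM k q y).filter (fun a => r ∣ a p ∧ r ∣ a p') = Fintype.piFinset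
      (fun s => if s = p ∨ s = p' then (EE q y).filter (fun a => r ∣ a) else EE q y) := by
    ext a
    rw [mem_filter, mem_MM, Fintype.mem_piFinset]
    constructor
    · rintro ⟨h1, h2, h3⟩ s
      split_ifs with h
      · rw [mem_filter]
        refine ⟨h1 s, ?_⟩
        rcases h with rfl | rfl
        · exact h2
        · exact h3
      · exact h1 s
    · intro h
      refine ⟨fun s => ?_, ?_, ?_⟩
      · have := h s
        split_ifs at this with h'
        · exact (mem_filter.1 this).1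
        · exact this
      · have := h p
        rw [if_pos (Or.inl rfl)] at this
        exact (mem_filter.1 this).2
      · have := h p'
        rw [if_pos (Or.inr rfl)] at this
        exact (mem_filter.1 this).2
  rw [e, (prod_univ_sum (fun s : Fin k × Fin k => if s = p ∨ s = p' then
    (EE q y).filter (fun a => r ∣ a) else EE q y) (fun _ (a : ℕ) => 1 / (a : ℝ))).symm]
  have h1 : ∀ s : Fin k × Fin k, ∑ a ∈ (if s = p ∨ s = p' then (EE q y).filter (fun a => r ∣ a)
      else EE q y), 1 / (a : ℝ) ≤ UU q y * (if s = p ∨ s = p' then 1 / (r : ℝ) else 1) := by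
    intro s
    split_ifs with h
    · rw [mul_one_div]
      exact UU_dvd q y r hr
    · rw [mul_one]; exact le_refl _
  refine (prod_le_prod (fun s _ => sum_nonneg fun _ _ => by positivity) fun s _ => h1 s).trans ?_
  rw [prod_mul_distrib, prod_const, card_univ, Fintype.card_prod, Fintype.card_fin, ← pow_two,
    prod_ite, prod_const_one, mul_one, prod_const]
  have hc : (univ.filter (fun s : Fin k × Fin k => s = p ∨ s = p')).card = 2 := by
    have : univ.filter (fun s : Fin k × Fin k => s = p ∨ s = p') = {p, p'} := by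
      ext s; simp
    rw [this, card_pair hp]
  rw [hc, one_div, one_div, inv_pow]

/-- coprime matrices -/
lemma good_lower (k : ℕ) (hk : 1 ≤ k) (y : ℕ) : by
    classical
    exact UU (2 * k ^ 4).factorial y ^ (k ^ 2) / 2 ≤
      ∑ a ∈ (MM k (2 * k ^ 4).factorial y).filter Cop, ∏ s, 1 / (a s : ℝ) := by
  classical
  obtain ⟨P, hP⟩ : ∃ P, P = 2 * k ^ 4 := ⟨_, rfl⟩
  rw [← hP]
  set q := P.factorial with hq
  have hP1 : 1 ≤ P := by
    rw [hP]
    have := Nat.one_le_pow 4 k hk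
    omega
  have hP0 : (0 : ℝ) < P := by exact_mod_cast hP1
  set h : (Fin k × Fin k → ℕ) → ℝ := fun a => ∏ s, 1 / (a s : ℝ) with hh
  have hh0 : ∀ a, 0 ≤ h a := fun a => prod_nonneg fun _ _ => by positivity
  have e1 : ∑ a ∈ MM k q y, h a = UU q y ^ (k ^ 2) := MM_sum k q y
  have e2 := sum_filter_add_sum_filter_not (MM k q y) Cop h
  -- bad part
  set T := (univ : Finset (Fin k × Fin k)).offDiag ×ˢ Ioc P y with hT
  have e3 : ∑ a ∈ (MM k q y).filter (fun a => ¬ Cop a), h a ≤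
      ∑ a ∈ MM k q y, ∑ t ∈ T, (if t.2 ∣ a t.1.1 ∧ t.2 ∣ a t.1.2 then h a else 0) := by
    refine le_trans ?_ (sum_le_sum_of_subset_of_nonneg (filter_subset (fun a => ¬ Cop a) _)
      fun a _ _ => sum_nonneg fun t _ => by split_ifs <;> [exact hh0 a; exact le_refl _])
    refine sum_le_sum fun a ha => ?_
    rw [mem_filter, mem_MM] at ha
    obtain ⟨ha, hb⟩ := ha
    unfold Cop at hb
    push Not at hb
    obtain ⟨p, p', hpp, hnc⟩ := hb
    obtain ⟨r, hr, hr1, hr2⟩ := Nat.Prime.not_coprime_iff_dvd.1 hnc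
    have h1 := ha p
    rw [mem_EE] at h1
    have hrP : P < r := by
      by_contra hcon
      have g1 : r ∣ q := (hr.dvd_factorial).2 (not_lt.1 hcon)
      have g2 : r ∣ Nat.gcd (a p) q := Nat.dvd_gcd hr1 g1
      rw [h1.2] at g2
      exact hr.one_lt.ne' (Nat.dvd_one.1 g2)
    have hry : r ≤ y := (Nat.le_of_dvd (by omega) hr1).trans h1.1.2
    have hmem : ((p, p'), r) ∈ T := by
      rw [hT, mem_product, mem_offDiag, mem_Ioc]
      exact ⟨⟨mem_univ _, mem_univ _, hpp⟩, hrP, hry⟩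
    have := single_le_sum (f := fun t : ((Fin k × Fin k) × (Fin k × Fin k)) × ℕ =>
      if t.2 ∣ a t.1.1 ∧ t.2 ∣ a t.1.2 then h a else 0)
      (fun t _ => by
        show 0 ≤ (if t.2 ∣ a t.1.1 ∧ t.2 ∣ a t.1.2 then h a else 0)
        split_ifs <;> [exact hh0 a; exact le_refl _]) hmem
    refine le_trans (le_of_eq ?_) this
    simp only
    rw [if_pos ⟨hr1, hr2⟩]
  have e4 : ∑ a ∈ MM k q y, ∑ t ∈ T, (if t.2 ∣ a t.1.1 ∧ t.2 ∣ a t.1.2 then h a else 0) ≤
      ∑ t ∈ T, UU q y ^ (k ^ 2) * (1 / (t.2 : ℝ) ^ 2) := by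
    rw [sum_comm]
    refine sum_le_sum fun t ht => ?_
    rw [hT, mem_product, mem_offDiag, mem_Ioc] at ht
    rw [← sum_filter]
    exact MM_bad k q y t.2 (by omega) t.1.1 t.1.2 ht.1.2.2
  have e5 : ∑ t ∈ T, UU q y ^ (k ^ 2) * (1 / (t.2 : ℝ) ^ 2) ≤ UU q y ^ (k ^ 2) / 2 := by
    rw [← mul_sum, hT, sum_product]
    simp only [sum_const, nsmul_eq_mul]
    rw [div_eq_mul_one_div (UU q y ^ (k ^ 2))]
    apply mul_le_mul_of_nonneg_left _ (pow_nonneg (UU_nonneg _ _) _)
    have g1 : (((univ : Finset (Fin k × Fin k)).offDiag.card : ℕ) : ℝ) ≤ (k : ℝ) ^ 4 := by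
      rw [offDiag_card, card_univ, Fintype.card_prod, Fintype.card_fin]
      have : k * k * (k * k) - k * k ≤ k ^ 4 := by
        have : k * k * (k * k) = k ^ 4 := by ring
        omega
      exact_mod_cast this
    have g2 : ∑ r ∈ Ioc P y, 1 / (r : ℝ) ^ 2 ≤ 1 / (P : ℝ) := by
      rcases le_or_gt P y with hPy | hPy
      · have := sum_Ioc_inv_sq_le_sub (α := ℝ) (k := P) (n := y) (by omega) hPy
        have h0 : (0 : ℝ) ≤ (y : ℝ)⁻¹ := by positivity
        simp only [one_div]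
        linarith
      · rw [Ioc_eq_empty (by omega), sum_empty]; positivity
    have g3 : (0 : ℝ) ≤ ∑ r ∈ Ioc P y, 1 / (r : ℝ) ^ 2 := sum_nonneg fun _ _ => by positivity
    calc (((univ : Finset (Fin k × Fin k)).offDiag.card : ℕ) : ℝ) * ∑ r ∈ Ioc P y, 1 / (r : ℝ) ^ 2 ≤
          (k : ℝ) ^ 4 * (1 / P) := mul_le_mul g1 g2 g3 (by positivity)
      _ = 1 / 2 := by
          rw [hP]
          have : (k : ℝ) ≠ 0 := by exact_mod_cast (by omega : k ≠ 0)
          push_cast
          field_simp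
  have e6 := e3.trans (e4.trans e5)
  linarith

theorem VV_ge (k : ℕ) (hk : 1 ≤ k) (y : ℕ) :
    UU (2 * k ^ 4).factorial y ^ (k ^ 2) / 2 ≤ VV (y ^ k) k := by
  classical
  refine (good_lower k hk y).trans ?_
  set q := (2 * k ^ 4).factorial with hq
  set G := (MM k q y).filter Cop with hG
  let φ : (Fin k × Fin k → ℕ) → (Fin k → ℕ) × (Fin k → ℕ) := fun a =>
    (fun i => ∏ j, a (i, j), fun j => ∏ i, a (i, j))
  have hinj : Set.InjOn φ (G : Set (Fin k × Fin k → ℕ)) := by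
    intro a ha b hb hab
    rw [mem_coe, hG, mem_filter] at ha hb
    funext ⟨i, j⟩
    rw [← gcd_rc ha.2 i j, ← gcd_rc hb.2 i j]
    have h1 : ∏ j', a (i, j') = ∏ j', b (i, j') := congrFun (congrArg Prod.fst hab) i
    have h2 : ∏ i', a (i', j) = ∏ i', b (i', j) := congrFun (congrArg Prod.snd hab) j
    rw [h1, h2]
  have hsub : G.image φ ⊆ ((Fintype.piFinset (fun _ : Fin k => Icc 1 (y ^ k))) ×ˢ
    (Fintype.piFinset (fun _ : Fin k => Icc 1 (y ^ k)))).filter
      (fun p => ∏ i, p.1 i = ∏ i, p.2 i) := by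
    intro b hb
    rw [mem_image] at hb
    obtain ⟨a, ha, rfl⟩ := hb
    rw [hG, mem_filter, mem_MM] at ha
    have h1 : ∀ p, 1 ≤ a p ∧ a p ≤ y := fun p => (mem_EE.1 (ha.1 p)).1
    have key : ∀ f : Fin k → ℕ, (∀ j, 1 ≤ f j ∧ f j ≤ y) → ∏ j, f j ∈ Icc 1 (y ^ k) := by
      intro f hf
      rw [mem_Icc]
      constructor
      · exact Nat.one_le_iff_ne_zero.2 (prod_ne_zero_iff.2 fun j _ => by have := (hf j).1; omega)
      · calc ∏ j, f j ≤ ∏ _j : Fin k, y := prod_le_prod' fun j _ => (hf j).2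
          _ = y ^ k := by rw [prod_const, card_univ, Fintype.card_fin]
    rw [mem_filter, mem_product, Fintype.mem_piFinset, Fintype.mem_piFinset]
    refine ⟨⟨fun i => key _ fun j => h1 _, fun j => key _ fun i => h1 _⟩, ?_⟩
    show ∏ i, ∏ j, a (i, j) = ∏ j, ∏ i, a (i, j)
    exact prod_comm
  unfold VV
  refine le_trans (le_of_eq ?_) (sum_le_sum_of_subset_of_nonneg hsub fun _ _ _ => by positivity)
  rw [sum_image hinj]
  refine sum_congr rfl fun a _ => ?_
  rw [prod_div_distrib, prod_const_one]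
  congr 1
  rw [Fintype.prod_prod_type]
  show _ = ((∏ i, ∏ j, a (i, j) : ℕ) : ℝ)
  push_cast
  rfl

theorem VV_lower (k : ℕ) (hk : 1 ≤ k) : ∃ c : ℝ, 0 < c ∧ ∃ y₀ : ℕ, 1 ≤ y₀ ∧ ∀ y : ℕ, y₀ ≤ y →
    c * Real.log y ^ (k ^ 2) ≤ VV (y ^ k) k := by
  set q := (2 * k ^ 4).factorial with hq
  have hq1 : 1 ≤ q := Nat.factorial_pos _
  have hq0 : (0 : ℝ) < q := by exact_mod_cast hq1
  refine ⟨(1 / (2 * q)) ^ (k ^ 2) / 2, by positivity, q ^ 2, Nat.one_le_pow _ _ hq1, ?_⟩
  intro y hy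
  have hy1 : 1 ≤ y := (Nat.one_le_pow _ _ hq1).trans hy
  have hl : 0 ≤ Real.log y := Real.log_natCast_nonneg y
  refine le_trans ?_ (VV_ge k hk y)
  have := UU_lower hq1 hy
  have h2 : (Real.log y / (2 * q)) ^ (k ^ 2) ≤ UU q y ^ (k ^ 2) :=
    pow_le_pow_left₀ (by positivity) this _
  calc (1 / (2 * (q : ℝ))) ^ (k ^ 2) / 2 * Real.log y ^ (k ^ 2) =
        (Real.log y / (2 * q)) ^ (k ^ 2) / 2 := by
        rw [div_pow, div_pow, one_pow]; ring
    _ ≤ _ := by linarith

/-- the trivial lower bound -/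
lemma VV_one {N k : ℕ} (hN : 1 ≤ N) : 1 ≤ VV N k := by
  classical
  unfold VV
  have hmem : ((fun _ => 1, fun _ => 1) : (Fin k → ℕ) × (Fin k → ℕ)) ∈
      ((Fintype.piFinset (fun _ : Fin k => Icc 1 N)) ×ˢ
    (Fintype.piFinset (fun _ : Fin k => Icc 1 N))).filter
      (fun p => ∏ i, p.1 i = ∏ i, p.2 i) := by
    simp only [mem_filter, mem_product, Fintype.mem_piFinset, mem_Icc]
    simp [hN]
  have := single_le_sum (f := fun p : (Fin k → ℕ) × (Fin k → ℕ) => 1 / ((∏ i, p.1 i : ℕ) : ℝ))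
    (fun p _ => by positivity) hmem
  simpa using this

end Pool.Agent.X108.DS
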