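import Pool.Agent.X108.DS.Zt

/-!
# Lower bounds for the moments of zeta on difference sets
-/

set_option autoImplicit false

namespace Pool.Agent.X108.DS

open Finset Complex Filter Topology
open Pool.Agent.TH612.GS (z)
open Pool.Agent.X108.HB (WS WS_card)
open Pool.Agent.Y766 Pool.Agent.Y766.PS

lemma am {a b : ℝ} (ha : 0 ≤ a) (hb : 0 ≤ b) {k : ℕ} (hk : 1 ≤ k) :
    a * b ^ (2 * k - 1) ≤ 4 ^ (2 * k - 1) * a ^ (2 * k) + b ^ (2 * k) / 4 := by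
  have e : ∀ x : ℝ, x ^ (2 * k) = x * x ^ (2 * k - 1) := by
    intro x
    rw [← pow_succ']
    congr 1
    omega
  rcases le_or_gt a (b / 4) with h | h
  · have h1 : a * b ^ (2 * k - 1) ≤ b / 4 * b ^ (2 * k - 1) := by gcongr
    have h2 : b / 4 * b ^ (2 * k - 1) = b ^ (2 * k) / 4 := by rw [e]; ring
    have h3 : 0 ≤ (4 : ℝ) ^ (2 * k - 1) * a ^ (2 * k) := by positivity
    linarith
  · have h1 : a * b ^ (2 * k - 1) ≤ a * (4 * a) ^ (2 * k - 1) := by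
      have : b ≤ 4 * a := by linarith
      gcongr
    have h2 : a * (4 * a) ^ (2 * k - 1) = 4 ^ (2 * k - 1) * a ^ (2 * k) := by
      rw [e, mul_pow]; ring
    have h3 : 0 ≤ b ^ (2 * k) / 4 := by positivity
    linarith

lemma ev_small {K e η : ℝ} (he : 0 < e) (hη : 0 < η) : ∃ T₁ : ℝ, ∀ T : ℝ, T₁ ≤ T → K * T ^ (-e) ≤ η := by
  have h1 : Tendsto (fun T : ℝ => K * T ^ (-e)) atTop (𝓝 (K * 0)) :=
    (tendsto_rpow_neg_atTop he).const_mul K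
  rw [mul_zero] at h1
  obtain ⟨T₁, h⟩ := eventually_atTop.1 (h1.eventually (ge_mem_nhds hη))
  exact ⟨T₁, fun T hT => h T hT⟩

lemma ev_large {e M : ℝ} (he : 0 < e) : ∃ T₁ : ℝ, ∀ T : ℝ, T₁ ≤ T → M ≤ T ^ e := by
  obtain ⟨T₁, h⟩ := eventually_atTop.1 ((tendsto_rpow_atTop he).eventually_ge_atTop M)
  exact ⟨T₁, fun T hT => h T hT⟩

/-- the error term -/
lemma err {d : ℝ} (hd : 0 < d) (hd1 : d ≤ 1 / 2) : ∃ T₀ : ℝ, 1 ≤ T₀ ∧ ∀ T : ℝ, T₀ ≤ T →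
    ∀ (R B : ℝ) (X : ℕ), T ^ (1 / 2 + d) ≤ R → 0 ≤ B → B ≤ T ^ (d / 4) → T ≤ X → (X : ℝ) ≤ T + 1 →
    B * (2 * Real.sqrt X * R + 6 * Real.sqrt X * R * (1 + Real.log (T + 1)) +
      3 / (2 * Real.sqrt X) * R ^ 2) ≤ R ^ 2 / 4 := by
  obtain ⟨C2, hC2, h2⟩ := log_absorb (show 0 < d / 4 by positivity)
  obtain ⟨T₁, h1⟩ := ev_small (K := 6 + 24 * C2) (show 0 < d / 2 by positivity) (show (0:ℝ) < 1 / 4 by norm_num)
  refine ⟨max 1 T₁, le_max_left _ _, ?_⟩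
  intro T hT R B X hR hB hB1 hX1 hX2
  have hT1 : 1 ≤ T := (le_max_left _ _).trans hT
  have hT0 : 0 < T := by linarith
  have h3 := h1 T ((le_max_right _ _).trans hT)
  have hR0 : 0 ≤ R := le_trans (by positivity) hR
  have hX0 : (0 : ℝ) < X := by linarith
  have sx : Real.sqrt X ≤ 2 * T ^ (1 / 2 : ℝ) := by
    rw [← Real.sqrt_eq_rpow]
    rw [show (2 : ℝ) = Real.sqrt 4 by
      rw [show (4 : ℝ) = 2 ^ 2 by norm_num]; exact (Real.sqrt_sq (by norm_num)).symm,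
      ← Real.sqrt_mul (by norm_num)]
    apply Real.sqrt_le_sqrt
    linarith
  have sx0 : 0 < Real.sqrt X := Real.sqrt_pos.2 hX0
  have sx1 : T ^ (1 / 2 : ℝ) ≤ Real.sqrt X := by
    rw [← Real.sqrt_eq_rpow]
    exact Real.sqrt_le_sqrt hX1
  have hTh : 0 < T ^ (1 / 2 : ℝ) := by positivity
  -- T^{1/2} ≤ R T^{-d}
  have g1 : T ^ (1 / 2 : ℝ) ≤ R * T ^ (-d) := by
    calc T ^ (1 / 2 : ℝ) = T ^ (1 / 2 + d) * T ^ (-d) := by
          rw [← Real.rpow_add hT0]; congr 1; ring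
      _ ≤ R * T ^ (-d) := by gcongr
  have hlog : 1 + Real.log (T + 1) ≤ 2 * C2 * T ^ (d / 4) := by
    refine (h2 (T + 1) (by linarith)).trans ?_
    have a1 : (T + 1) ^ (d / 4) ≤ (2 * T) ^ (d / 4) :=
      Real.rpow_le_rpow (by positivity) (by linarith) (by positivity)
    have a2 : (2 * T) ^ (d / 4) = 2 ^ (d / 4) * T ^ (d / 4) := Real.mul_rpow (by norm_num) hT0.le
    have a3 : (2 : ℝ) ^ (d / 4) ≤ 2 := by
      calc (2 : ℝ) ^ (d / 4) ≤ 2 ^ (1 : ℝ) := Real.rpow_le_rpow_of_exponent_le (by norm_num) (by linarith)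
        _ = 2 := Real.rpow_one 2
    have a4 : 0 ≤ T ^ (d / 4) := by positivity
    calc C2 * (T + 1) ^ (d / 4) ≤ C2 * (2 ^ (d / 4) * T ^ (d / 4)) := by rw [← a2]; gcongr
      _ ≤ C2 * (2 * T ^ (d / 4)) := by gcongr
      _ = _ := by ring
  have hlog0 : 0 ≤ 1 + Real.log (T + 1) := by
    have := Real.log_nonneg (by linarith : (1:ℝ) ≤ T + 1)
    linarith
  have p1 : Real.sqrt X * R ≤ 2 * T ^ (-d) * R ^ 2 := by
    calc Real.sqrt X * R ≤ (2 * (R * T ^ (-d))) * R := by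
          have : Real.sqrt X ≤ 2 * (R * T ^ (-d)) := by linarith
          gcongr
      _ = _ := by ring
  have t1 : T ^ (d / 4) * T ^ (-d) ≤ T ^ (-(d / 2)) := by
    rw [← Real.rpow_add hT0]
    exact Real.rpow_le_rpow_of_exponent_le hT1 (by linarith)
  have t2 : T ^ (d / 4) * (T ^ (-d) * T ^ (d / 4)) = T ^ (-(d / 2)) := by
    rw [← Real.rpow_add hT0, ← Real.rpow_add hT0]
    congr 1; ring
  have t3 : T ^ (d / 4) * (1 / T ^ (1 / 2 : ℝ)) ≤ T ^ (-(d / 2)) := by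
    rw [one_div, ← Real.rpow_neg hT0.le, ← Real.rpow_add hT0]
    exact Real.rpow_le_rpow_of_exponent_le hT1 (by linarith)
  have q1 : B * (2 * Real.sqrt X * R) ≤ 4 * T ^ (-(d / 2)) * R ^ 2 := by
    calc B * (2 * Real.sqrt X * R) = 2 * B * (Real.sqrt X * R) := by ring
      _ ≤ 2 * T ^ (d / 4) * (2 * T ^ (-d) * R ^ 2) := by gcongr
      _ = 4 * (T ^ (d / 4) * T ^ (-d)) * R ^ 2 := by ring
      _ ≤ _ := by gcongr
  have q2 : B * (6 * Real.sqrt X * R * (1 + Real.log (T + 1))) ≤ 24 * C2 * T ^ (-(d / 2)) * R ^ 2 := by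
    calc B * (6 * Real.sqrt X * R * (1 + Real.log (T + 1))) =
          6 * B * (Real.sqrt X * R) * (1 + Real.log (T + 1)) := by ring
      _ ≤ 6 * T ^ (d / 4) * (2 * T ^ (-d) * R ^ 2) * (2 * C2 * T ^ (d / 4)) := by gcongr
      _ = 24 * C2 * (T ^ (d / 4) * (T ^ (-d) * T ^ (d / 4))) * R ^ 2 := by ring
      _ = _ := by rw [t2]
  have q3 : B * (3 / (2 * Real.sqrt X) * R ^ 2) ≤ 2 * T ^ (-(d / 2)) * R ^ 2 := by
    have : 3 / (2 * Real.sqrt X) ≤ 2 * (1 / T ^ (1 / 2 : ℝ)) := by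
      rw [mul_one_div, div_le_div_iff₀ (by positivity) hTh]
      nlinarith
    calc B * (3 / (2 * Real.sqrt X) * R ^ 2) ≤ T ^ (d / 4) * (2 * (1 / T ^ (1 / 2 : ℝ)) * R ^ 2) := by gcongr
      _ = 2 * (T ^ (d / 4) * (1 / T ^ (1 / 2 : ℝ))) * R ^ 2 := by ring
      _ ≤ _ := by gcongr
  have q4 : (6 + 24 * C2) * T ^ (-(d / 2)) * R ^ 2 ≤ 1 / 4 * R ^ 2 := by gcongr
  calc B * (2 * Real.sqrt X * R + 6 * Real.sqrt X * R * (1 + Real.log (T + 1)) +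
        3 / (2 * Real.sqrt X) * R ^ 2) = B * (2 * Real.sqrt X * R) +
        B * (6 * Real.sqrt X * R * (1 + Real.log (T + 1))) + B * (3 / (2 * Real.sqrt X) * R ^ 2) := by ring
    _ ≤ 4 * T ^ (-(d / 2)) * R ^ 2 + 24 * C2 * T ^ (-(d / 2)) * R ^ 2 + 2 * T ^ (-(d / 2)) * R ^ 2 := by
        linarith
    _ = (6 + 24 * C2) * T ^ (-(d / 2)) * R ^ 2 := by ring
    _ ≤ 1 / 4 * R ^ 2 := q4
    _ = _ := by ring

/-- **moments on difference sets** -/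
theorem moments (k : ℕ) (hk : 1 ≤ k) {δ : ℝ} (hδ : 0 < δ) : ∃ c : ℝ, 0 < c ∧ ∃ T₀ : ℝ, 1 ≤ T₀ ∧
    ∀ T : ℝ, T₀ ≤ T → ∀ (S : Finset ℝ) (x : ℝ), WS S x T → T ^ (1 / 2 + δ) ≤ S.card →
    c * (S.card : ℝ) ^ 2 * Real.log T ^ (k ^ 2) ≤ ∑ p ∈ S.offDiag, ‖z (p.1 - p.2)‖ ^ (2 * k) := by
  obtain ⟨d, hd⟩ : ∃ d, d = min δ (1 / 2) := ⟨_, rfl⟩
  have hd0 : 0 < d := by rw [hd]; exact lt_min hδ (by norm_num)
  have hd1 : d ≤ 1 / 2 := by rw [hd]; exact min_le_right _ _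
  have hdδ : d ≤ δ := by rw [hd]; exact min_le_left _ _
  have hkr : (1 : ℝ) ≤ k := by exact_mod_cast hk
  have hk0 : (0 : ℝ) < k := by linarith
  obtain ⟨a, ha⟩ : ∃ a : ℝ, a = d / (8 * (k : ℝ) ^ 2) := ⟨_, rfl⟩
  have ha0 : 0 < a := by rw [ha]; positivity
  obtain ⟨c1, hc1, y₀, hy₀, hV⟩ := VV_lower k hk
  obtain ⟨T₁, hT₁, hE⟩ := err hd0 hd1
  obtain ⟨T₂, h2⟩ := ev_large (M := y₀ + 1) ha0
  obtain ⟨T₃, h3⟩ := ev_large (M := 2) (show 0 < a / 2 by positivity)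
  refine ⟨c1 * (a / 2) ^ (k ^ 2) / (2 * 4 ^ (2 * k - 1)), by positivity, max T₁ (max T₂ T₃),
    hT₁.trans (le_max_left _ _), ?_⟩
  intro T hT S x hS hR
  have hTa := (le_max_left _ _).trans hT
  have hTb := h2 T (((le_max_left _ _).trans (le_max_right _ _)).trans hT)
  have hTc := h3 T (((le_max_right _ _).trans (le_max_right _ _)).trans hT)
  have hT1 : 1 ≤ T := hT₁.trans hTa
  have hT0 : 0 < T := by linarith
  set R : ℝ := (S.card : ℝ) with hRd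
  have hR0 : 0 ≤ R := Nat.cast_nonneg _
  have hR' : T ^ (1 / 2 + d) ≤ R :=
    (Real.rpow_le_rpow_of_exponent_le hT1 (by linarith)).trans hR
  obtain ⟨y, hy⟩ : ∃ y : ℕ, y = ⌊T ^ a⌋₊ := ⟨_, rfl⟩
  have hTa0 : 0 ≤ T ^ a := by positivity
  have hy1 : (y : ℝ) ≤ T ^ a := by rw [hy]; exact Nat.floor_le hTa0
  have hy2 : T ^ a < y + 1 := by rw [hy]; exact Nat.lt_floor_add_one _
  have hyy : y₀ ≤ y := by
    have : (y₀ : ℝ) < y + 1 := by linarith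
    have h : y₀ < y + 1 := by exact_mod_cast this
    omega
  have hy11 : 1 ≤ y := hy₀.trans hyy
  have hyr : (1 : ℝ) ≤ y := by exact_mod_cast hy11
  obtain ⟨X, hX⟩ : ∃ X : ℕ, X = ⌈T⌉₊ := ⟨_, rfl⟩
  have hX1 : T ≤ X := by rw [hX]; exact Nat.le_ceil T
  have hX2 : (X : ℝ) ≤ T + 1 := by rw [hX]; exact (Nat.ceil_lt_add_one hT0.le).le
  have hak : a * k ≤ 1 := by
    rw [ha, div_mul_eq_mul_div, div_le_one (by positivity)]
    nlinarith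
  have hNX : y ^ k ≤ X := by
    have : ((y ^ k : ℕ) : ℝ) ≤ X := by
      push_cast
      calc (y : ℝ) ^ k ≤ (T ^ a) ^ k := by gcongr
        _ = T ^ (a * k) := by rw [← Real.rpow_natCast, ← Real.rpow_mul hT0.le]
        _ ≤ T ^ (1 : ℝ) := Real.rpow_le_rpow_of_exponent_le hT1 hak
        _ = T := Real.rpow_one T
        _ ≤ X := hX1
    exact_mod_cast this
  have hN1 : 1 ≤ y ^ k := Nat.one_le_pow _ _ hy11
  have hB : ((y ^ k : ℕ) : ℝ) ^ (2 * k - 1) ≤ T ^ (d / 4) := by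
    push_cast
    rw [← pow_mul]
    calc (y : ℝ) ^ (k * (2 * k - 1)) ≤ (y : ℝ) ^ (2 * k ^ 2) := by
          apply pow_le_pow_right₀ hyr
          have : k * (2 * k - 1) ≤ k * (2 * k) := Nat.mul_le_mul_left _ (by omega)
          calc k * (2 * k - 1) ≤ k * (2 * k) := this
            _ = 2 * k ^ 2 := by ring
      _ ≤ (T ^ a) ^ (2 * k ^ 2) := by gcongr
      _ = T ^ (a * ((2 * k ^ 2 : ℕ) : ℝ)) := by rw [← Real.rpow_natCast, ← Real.rpow_mul hT0.le]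
      _ = T ^ (d / 4) := by
          congr 1
          rw [ha]
          push_cast
          field_simp
          ring
  obtain ⟨-, hc2, hc3⟩ := core hT1 hS hk hX1 hN1 hNX
  have hEr := hE T hTa R _ X hR' (by positivity) hB hX1 hX2
  have hV1 : 1 ≤ VV (y ^ k) k := VV_one hN1
  obtain ⟨M, hM⟩ : ∃ M, M = ∑ p ∈ S.offDiag, ‖z (p.1 - p.2)‖ ^ (2 * k) := ⟨_, rfl⟩
  obtain ⟨S2, hS2⟩ : ∃ S2, S2 = R * ‖AA (y ^ k) 0‖ ^ (2 * k) +
    ∑ p ∈ S.offDiag, ‖AA (y ^ k) (p.1 - p.2)‖ ^ (2 * k) := ⟨_, rfl⟩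
  rw [← hRd] at hc2 hc3
  rw [← hS2] at hc2 hc3
  rw [← hM]
  have hmix : ∑ p ∈ S.offDiag, ‖z (p.1 - p.2)‖ * ‖AA (y ^ k) (p.1 - p.2)‖ ^ (2 * k - 1) ≤
      4 ^ (2 * k - 1) * M + S2 / 4 := by
    have e0 : 0 ≤ R * ‖AA (y ^ k) 0‖ ^ (2 * k) := by positivity
    calc ∑ p ∈ S.offDiag, ‖z (p.1 - p.2)‖ * ‖AA (y ^ k) (p.1 - p.2)‖ ^ (2 * k - 1) ≤
          ∑ p ∈ S.offDiag, (4 ^ (2 * k - 1) * ‖z (p.1 - p.2)‖ ^ (2 * k) +
            ‖AA (y ^ k) (p.1 - p.2)‖ ^ (2 * k) / 4) :=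
          sum_le_sum fun p _ => am (norm_nonneg _) (norm_nonneg _) hk
      _ = 4 ^ (2 * k - 1) * M + (∑ p ∈ S.offDiag, ‖AA (y ^ k) (p.1 - p.2)‖ ^ (2 * k)) / 4 := by
          rw [sum_add_distrib, ← mul_sum, ← sum_div, hM]
      _ ≤ _ := by rw [hS2]; linarith
  have hR2 : R ^ 2 ≤ S2 := by
    have : 1 * R ^ 2 ≤ VV (y ^ k) k * R ^ 2 := by gcongr
    linarith
  have hfin : S2 / 2 ≤ 4 ^ (2 * k - 1) * M := by linarith
  have h4 : (0 : ℝ) < 4 ^ (2 * k - 1) := by positivity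
  have hVl := hV y hyy
  have hlogy : a / 2 * Real.log T ≤ Real.log y := by
    have h5 : T ^ (a / 2) ≤ y := by
      have : T ^ a = T ^ (a / 2) * T ^ (a / 2) := by rw [← Real.rpow_add hT0]; congr 1; ring
      nlinarith
    calc a / 2 * Real.log T = Real.log (T ^ (a / 2)) := by rw [Real.log_rpow hT0]
      _ ≤ Real.log y := Real.log_le_log (by positivity) h5
  have hlT : 0 ≤ Real.log T := Real.log_nonneg hT1
  have hpow : (a / 2) ^ (k ^ 2) * Real.log T ^ (k ^ 2) ≤ Real.log y ^ (k ^ 2) := by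
    rw [← mul_pow]
    gcongr
  have hS2l : c1 * ((a / 2) ^ (k ^ 2) * Real.log T ^ (k ^ 2)) * R ^ 2 ≤ S2 := by
    refine le_trans ?_ hc2
    gcongr
    exact le_trans (by gcongr) hVl
  have e : c1 * (a / 2) ^ (k ^ 2) / (2 * 4 ^ (2 * k - 1)) * R ^ 2 * Real.log T ^ (k ^ 2) =
      (c1 * ((a / 2) ^ (k ^ 2) * Real.log T ^ (k ^ 2)) * R ^ 2) / 2 / 4 ^ (2 * k - 1) := by
    field_simp
  rw [e, div_le_iff₀ h4]
  linarith

end Pool.Agent.X108.DS
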