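import Mathlib

/-!
# Positive definite sums over difference sets
-/

set_option autoImplicit false

namespace Pool.Agent.X108.DS

open Finset Complex

/-- the exponential `e^{-iθu}` -/
noncomputable def en (θ u : ℝ) : ℂ := cexp (((-(θ * u) : ℝ) : ℂ) * I)

lemma en_norm (θ u : ℝ) : ‖en θ u‖ = 1 := by
  unfold en; exact Complex.norm_exp_ofReal_mul_I _

lemma en_zero (u : ℝ) : en 0 u = 1 := by
  unfold en; simp

lemma en_mul (θ θ' u : ℝ) : en θ u * en θ' u = en (θ + θ') u := by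
  unfold en
  rw [← Complex.exp_add]
  congr 1
  push_cast
  ring

lemma en_conj (θ u : ℝ) : (starRingEnd ℂ) (en θ u) = en (-θ) u := by
  unfold en
  rw [← Complex.exp_conj]
  congr 1
  rw [map_mul, Complex.conj_ofReal, Complex.conj_I]
  push_cast
  ring

lemma en_sub (θ t t' : ℝ) : en θ (t - t') = en θ t * (starRingEnd ℂ) (en θ t') := by
  rw [en_conj]
  unfold en
  rw [← Complex.exp_add]
  congr 1
  push_cast
  ring

lemma en_prod {ι : Type*} (s : Finset ι) (θ : ι → ℝ) (u : ℝ) :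
    ∏ i ∈ s, en (θ i) u = en (∑ i ∈ s, θ i) u := by
  classical
  induction s using Finset.induction_on with
  | empty => simp [en_zero]
  | insert a s ha ih => rw [prod_insert ha, sum_insert ha, ih, en_mul]

/-- finite combination of exponentials with nonnegative coefficients -/
def Pos (φ : ℝ → ℂ) : Prop := ∃ (ι : Type) (s : Finset ι) (a θ : ι → ℝ), (∀ i ∈ s, 0 ≤ a i) ∧
  ∀ u, φ u = ∑ i ∈ s, (a i : ℂ) * en (θ i) u

lemma pos_one : Pos (fun _ => 1) :=
  ⟨Unit, {()}, fun _ => 1, fun _ => 0, fun _ _ => zero_le_one, fun u => by simp [en_zero]⟩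

lemma pos_mul {φ ψ : ℝ → ℂ} (h : Pos φ) (h' : Pos ψ) : Pos (fun u => φ u * ψ u) := by
  obtain ⟨ι, s, a, θ, ha, hφ⟩ := h
  obtain ⟨κ, s', a', θ', ha', hψ⟩ := h'
  refine ⟨ι × κ, s ×ˢ s', fun p => a p.1 * a' p.2, fun p => θ p.1 + θ' p.2, ?_, ?_⟩
  · intro p hp
    rw [mem_product] at hp
    exact mul_nonneg (ha _ hp.1) (ha' _ hp.2)
  · intro u
    show φ u * ψ u = _
    rw [hφ, hψ, sum_mul_sum, ← sum_product']
    refine sum_congr rfl fun p _ => ?_
    simp only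
    rw [← en_mul]
    push_cast
    ring

lemma pos_conj {φ : ℝ → ℂ} (h : Pos φ) : Pos (fun u => (starRingEnd ℂ) (φ u)) := by
  obtain ⟨ι, s, a, θ, ha, hφ⟩ := h
  refine ⟨ι, s, a, fun i => -θ i, ha, ?_⟩
  intro u
  show (starRingEnd ℂ) (φ u) = _
  rw [hφ, map_sum]
  refine sum_congr rfl fun i _ => ?_
  rw [map_mul, Complex.conj_ofReal, en_conj]

lemma pos_pow {φ : ℝ → ℂ} (h : Pos φ) (k : ℕ) : Pos (fun u => φ u ^ k) := by
  induction k with
  | zero => simpa using pos_one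
  | succ k ih =>
    have := pos_mul ih h
    refine (funext fun u => ?_ : (fun u => φ u ^ (k + 1)) = fun u => φ u ^ k * φ u) ▸ this
    rw [pow_succ]

/-- the sum over the differences -/
noncomputable def Q (S : Finset ℝ) (φ : ℝ → ℂ) : ℂ := ∑ t ∈ S, ∑ t' ∈ S, φ (t - t')

/-- the transform of the set -/
noncomputable def w (S : Finset ℝ) (θ : ℝ) : ℝ := ‖∑ t ∈ S, en θ t‖ ^ 2

lemma w_nonneg (S : Finset ℝ) (θ : ℝ) : 0 ≤ w S θ := by unfold w; positivity

lemma w_zero (S : Finset ℝ) : w S 0 = (S.card : ℝ) ^ 2 := by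
  unfold w
  simp only [en_zero, sum_const, nsmul_eq_mul, mul_one]
  rw [Complex.norm_natCast]

lemma Q_en (S : Finset ℝ) (θ : ℝ) : Q S (en θ) = (w S θ : ℂ) := by
  unfold Q w
  simp only [en_sub]
  rw [← sum_mul_sum, ← map_sum]
  rw [Complex.mul_conj, Complex.normSq_eq_norm_sq]

lemma Q_sum {ι : Type*} (S : Finset ℝ) (s : Finset ι) (a : ι → ℝ) (θ : ι → ℝ) (φ : ℝ → ℂ)
    (h : ∀ u, φ u = ∑ i ∈ s, (a i : ℂ) * en (θ i) u) :
    Q S φ = ((∑ i ∈ s, a i * w S (θ i) : ℝ) : ℂ) := by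
  have e : Q S φ = ∑ i ∈ s, (a i : ℂ) * Q S (en (θ i)) := by
    unfold Q
    simp only [h, mul_sum]
    calc ∑ t ∈ S, ∑ t' ∈ S, ∑ i ∈ s, (a i : ℂ) * en (θ i) (t - t') =
          ∑ t ∈ S, ∑ i ∈ s, ∑ t' ∈ S, (a i : ℂ) * en (θ i) (t - t') :=
          sum_congr rfl fun t _ => sum_comm
      _ = _ := sum_comm
  rw [e]
  push_cast
  refine sum_congr rfl fun i _ => ?_
  rw [Q_en]

lemma Q_nonneg {S : Finset ℝ} {φ : ℝ → ℂ} (h : Pos φ) : 0 ≤ (Q S φ).re := by
  obtain ⟨ι, s, a, θ, ha, hφ⟩ := h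
  rw [Q_sum S s a θ φ hφ, Complex.ofReal_re]
  exact sum_nonneg fun i hi => mul_nonneg (ha i hi) (w_nonneg _ _)

lemma Q_add (S : Finset ℝ) (φ ψ : ℝ → ℂ) : Q S (fun u => φ u + ψ u) = Q S φ + Q S ψ := by
  unfold Q
  simp only [sum_add_distrib]

/-- monotonicity -/
lemma Q_mono {S : Finset ℝ} {φ ψ : ℝ → ℂ} (h : Pos (fun u => ψ u - φ u)) :
    (Q S φ).re ≤ (Q S ψ).re := by
  have e : Q S ψ = Q S φ + Q S (fun u => ψ u - φ u) := by
    rw [← Q_add]
    congr 1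
    funext u
    ring
  rw [e, Complex.add_re]
  have := Q_nonneg (S := S) h
  linarith

/-- Dirichlet polynomial with coefficients `n^{-1/2}` -/
noncomputable def AA (N : ℕ) (u : ℝ) : ℂ :=
  ∑ n ∈ Icc 1 N, (((1 / Real.sqrt n : ℝ)) : ℂ) * en (Real.log n) u

lemma AA_pos (N : ℕ) : Pos (AA N) :=
  ⟨ℕ, Icc 1 N, fun n => 1 / Real.sqrt n, fun n => Real.log n, fun n _ => by positivity, fun u => rfl⟩

lemma AA_sub_pos {N M : ℕ} (h : N ≤ M) : Pos (fun u => AA M u - AA N u) := by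
  refine ⟨ℕ, Ioc N M, fun n => 1 / Real.sqrt n, fun n => Real.log n, fun n _ => by positivity,
    fun u => ?_⟩
  unfold AA
  rw [sub_eq_iff_eq_add']
  have e : Icc 1 M = Icc 1 N ∪ Ioc N M := by
    ext n
    simp only [mem_Icc, mem_union, mem_Ioc]
    omega
  rw [e, sum_union]
  rw [disjoint_left]
  intro n hn hn'
  rw [mem_Icc] at hn
  rw [mem_Ioc] at hn'
  omega

lemma AA_norm (N : ℕ) (u : ℝ) : ‖AA N u‖ ≤ N := by
  unfold AA
  calc ‖∑ n ∈ Icc 1 N, (((1 / Real.sqrt n : ℝ)) : ℂ) * en (Real.log n) u‖ ≤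
        ∑ n ∈ Icc 1 N, (1 : ℝ) := by
        refine norm_sum_le_of_le _ fun n hn => ?_
        rw [mem_Icc] at hn
        rw [norm_mul, en_norm, mul_one, Complex.norm_real, Real.norm_of_nonneg (by positivity)]
        rw [div_le_one (Real.sqrt_pos.2 (by exact_mod_cast (by omega : 0 < n)))]
        rw [Real.one_le_sqrt]
        exact_mod_cast hn.1
    _ = N := by simp

lemma sum_inv_sqrt (N : ℕ) : ∑ n ∈ Icc 1 N, 1 / Real.sqrt n ≤ 2 * Real.sqrt N := by
  induction N with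
  | zero => simp
  | succ N ih =>
    rw [sum_Icc_succ_top (by omega)]
    have h1 : (0 : ℝ) ≤ N := N.cast_nonneg
    have h2 : 0 < Real.sqrt ((N : ℝ) + 1) := Real.sqrt_pos.2 (by positivity)
    have h3 : Real.sqrt (N : ℝ) ^ 2 = N := Real.sq_sqrt h1
    have h4 : Real.sqrt ((N : ℝ) + 1) ^ 2 = N + 1 := Real.sq_sqrt (by positivity)
    have h5 : 1 / Real.sqrt ((N : ℝ) + 1) ≤ 2 * (Real.sqrt ((N : ℝ) + 1) - Real.sqrt N) := by
      rw [div_le_iff₀ h2]
      nlinarith [sq_nonneg (Real.sqrt ((N : ℝ) + 1) - Real.sqrt N)]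
    push_cast
    linarith

lemma AA_norm' (N : ℕ) (u : ℝ) : ‖AA N u‖ ≤ 2 * Real.sqrt N := by
  refine le_trans ?_ (sum_inv_sqrt N)
  unfold AA
  refine norm_sum_le_of_le _ fun n hn => ?_
  rw [norm_mul, en_norm, mul_one, Complex.norm_real, Real.norm_of_nonneg (by positivity)]

/-- expansion of powers -/
lemma AA_pow (N k : ℕ) (u : ℝ) : AA N u ^ k =
    ∑ f ∈ Fintype.piFinset (fun _ : Fin k => Icc 1 N),
      ((∏ i, 1 / Real.sqrt (f i) : ℝ) : ℂ) * en (∑ i, Real.log (f i)) u := by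
  have e : AA N u ^ k = ∏ _i : Fin k, AA N u := by
    rw [prod_const, card_univ, Fintype.card_fin]
  rw [e]
  unfold AA
  rw [prod_univ_sum]
  refine sum_congr rfl fun f _ => ?_
  rw [prod_mul_distrib, en_prod]
  push_cast
  rfl

/-- weighted number of solutions -/
noncomputable def VV (N k : ℕ) : ℝ :=
  ∑ p ∈ ((Fintype.piFinset (fun _ : Fin k => Icc 1 N)) ×ˢ
    (Fintype.piFinset (fun _ : Fin k => Icc 1 N))).filter
      (fun p => ∏ i, p.1 i = ∏ i, p.2 i), 1 / ((∏ i, p.1 i : ℕ) : ℝ)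

/-- the main term -/
theorem Q_lower (S : Finset ℝ) (N k : ℕ) :
    VV N k * (S.card : ℝ) ^ 2 ≤
      (Q S (fun u => AA N u ^ k * (starRingEnd ℂ) (AA N u) ^ k)).re := by
  classical
  set P := Fintype.piFinset (fun _ : Fin k => Icc 1 N) with hP
  have h : ∀ u, AA N u ^ k * (starRingEnd ℂ) (AA N u) ^ k =
      ∑ p ∈ P ×ˢ P, (((∏ i, 1 / Real.sqrt (p.1 i)) * (∏ i, 1 / Real.sqrt (p.2 i)) : ℝ) : ℂ) *
        en ((∑ i, Real.log (p.1 i)) - ∑ i, Real.log (p.2 i)) u := by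
    intro u
    rw [← map_pow, AA_pow, map_sum, sum_mul_sum, ← sum_product']
    refine sum_congr rfl fun p _ => ?_
    rw [map_mul, Complex.conj_ofReal, en_conj, sub_eq_add_neg, ← en_mul]
    push_cast
    ring
  rw [Q_sum S (P ×ˢ P) _ _ _ h, Complex.ofReal_re]
  unfold VV
  rw [sum_mul]
  have hsub : (P ×ˢ P).filter (fun p => ∏ i, p.1 i = ∏ i, p.2 i) ⊆ P ×ˢ P := filter_subset _ _
  refine le_trans (le_of_eq ?_) (sum_le_sum_of_subset_of_nonneg hsub fun p _ _ => ?_)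
  · refine sum_congr rfl fun p hp => ?_
    rw [mem_filter, mem_product, hP, Fintype.mem_piFinset, Fintype.mem_piFinset] at hp
    obtain ⟨⟨h1, h2⟩, h3⟩ := hp
    have g1 : ∀ i, (p.1 i : ℝ) ≠ 0 := fun i => by
      have := (mem_Icc.1 (h1 i)).1
      exact_mod_cast (by omega : p.1 i ≠ 0)
    have g2 : ∀ i, (p.2 i : ℝ) ≠ 0 := fun i => by
      have := (mem_Icc.1 (h2 i)).1
      exact_mod_cast (by omega : p.2 i ≠ 0)
    have e1 : ∑ i, Real.log (p.1 i) = Real.log ((∏ i, p.1 i : ℕ) : ℝ) := by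
      push_cast
      rw [Real.log_prod (fun i _ => g1 i)]
    have e2 : ∑ i, Real.log (p.2 i) = Real.log ((∏ i, p.2 i : ℕ) : ℝ) := by
      push_cast
      rw [Real.log_prod (fun i _ => g2 i)]
    rw [e1, e2, h3, sub_self, w_zero]
    congr 1
    have e3 : ∀ f : Fin k → ℕ, ∏ i, 1 / Real.sqrt (f i) = 1 / Real.sqrt ((∏ i, f i : ℕ) : ℝ) := by
      intro f
      rw [prod_div_distrib, prod_const_one]
      congr 1
      push_cast
      have : ∀ s : Finset (Fin k), ∏ i ∈ s, Real.sqrt (f i) = Real.sqrt (∏ i ∈ s, (f i : ℝ)) := by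
        intro s
        induction s using Finset.induction_on with
        | empty => simp
        | insert a s ha ih =>
          rw [prod_insert ha, prod_insert ha, ih, Real.sqrt_mul (Nat.cast_nonneg _)]
      exact this univ
    rw [e3, e3, h3, div_mul_div_comm, one_mul, Real.mul_self_sqrt (Nat.cast_nonneg _)]
  · have := w_nonneg S ((∑ i, Real.log (p.1 i)) - ∑ i, Real.log (p.2 i))
    positivity

/-- the basic inequality -/
theorem basic (S : Finset ℝ) {N X : ℕ} (h : N ≤ X) {k : ℕ} (hk : 1 ≤ k) :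
    (Q S (fun u => AA N u ^ k * (starRingEnd ℂ) (AA N u) ^ k)).re ≤
      (Q S (fun u => AA X u * (AA N u ^ (k - 1) * (starRingEnd ℂ) (AA N u) ^ k))).re := by
  apply Q_mono
  have h1 := pos_mul (AA_sub_pos h) (pos_mul (pos_pow (AA_pos N) (k - 1)) (pos_pow (pos_conj (AA_pos N)) k))
  refine (funext fun u => ?_ : (fun u => AA X u * (AA N u ^ (k - 1) * (starRingEnd ℂ) (AA N u) ^ k) -
    AA N u ^ k * (starRingEnd ℂ) (AA N u) ^ k) = fun u => (AA X u - AA N u) * (AA N u ^ (k - 1) *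
      (starRingEnd ℂ) (AA N u) ^ k)) ▸ h1
  obtain ⟨j, rfl⟩ : ∃ j, k = j + 1 := ⟨k - 1, by omega⟩
  rw [Nat.add_sub_cancel]
  ring

end Pool.Agent.X108.DS
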