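import Pool.Agent.X108.DS.Cnt
import Pool.Agent.TH321.GF.AQ
import Pool.Agent.X108.HB.Z3

/-!
# Zeta at the differences of a set
-/

set_option autoImplicit false

namespace Pool.Agent.X108.DS

open Finset Complex
open Pool.Agent.TH612.GS (z zN PN)
open Pool.Agent.X108.HB (WS WS_card)

lemma PN_eq (X : ℕ) (v : ℝ) : PN X v = AA X v := by
  unfold PN zN AA
  refine sum_congr rfl fun n hn => ?_
  rw [mem_Icc] at hn
  have hn0 : (n : ℂ) ≠ 0 := by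
    have : n ≠ 0 := by omega
    exact_mod_cast this
  have hnr : (0 : ℝ) < n := by exact_mod_cast (by omega : 0 < n)
  have e1 : (1 / Real.sqrt n : ℝ) = Real.exp (-(1 / 2) * Real.log n) := by
    rw [Real.sqrt_eq_rpow, one_div, ← Real.rpow_neg hnr.le, Real.rpow_def_of_pos hnr]
    congr 1
    ring
  rw [Complex.cpow_def_of_ne_zero hn0, e1]
  unfold en
  rw [Complex.ofReal_exp, ← Complex.exp_add]
  congr 1
  rw [← Complex.natCast_log]
  push_cast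
  ring

lemma z_neg (v : ℝ) : z (-v) = (starRingEnd ℂ) (z v) := by
  unfold z
  rw [← riemannZeta_conj]
  congr 1
  rw [map_add, map_mul, Complex.conj_I, Complex.conj_ofReal]
  push_cast
  have : (starRingEnd ℂ) (1 / 2 : ℂ) = 1 / 2 := by
    have h : (1 / 2 : ℂ) = ((1 / 2 : ℝ) : ℂ) := by push_cast; ring
    rw [h, Complex.conj_ofReal]
  rw [this]
  ring

lemma AA_neg (X : ℕ) (v : ℝ) : AA X (-v) = (starRingEnd ℂ) (AA X v) := by
  unfold AA
  rw [map_sum]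
  refine sum_congr rfl fun n _ => ?_
  rw [map_mul, Complex.conj_ofReal, en_conj]
  unfold en
  congr 3
  push_cast
  ring

lemma approx {v : ℝ} (hv : v ≠ 0) {X : ℕ} (hX : 1 ≤ X) (h : |v| ≤ X) :
    ‖AA X v‖ ≤ ‖z v‖ + (3 * Real.sqrt X * (1 / (1 + |v|)) + 3 / (2 * Real.sqrt X)) := by
  have key : ‖z v - AA X v‖ ≤ 3 * Real.sqrt X / (1 + |v|) + 3 / (2 * Real.sqrt X) := by
    rcases lt_or_gt_of_ne hv with h0 | h0
    · rw [abs_of_neg h0] at h ⊢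
      have h1 := Pool.Agent.TH321.GF.AQ_pw (-v) X hX (by linarith) h
      rw [PN_eq] at h1
      have e1 : z v = (starRingEnd ℂ) (z (-v)) := by rw [← z_neg, neg_neg]
      have e2 : AA X v = (starRingEnd ℂ) (AA X (-v)) := by rw [← AA_neg, neg_neg]
      rw [e1, e2, ← map_sub, RCLike.norm_conj]
      exact h1
    · rw [abs_of_pos h0] at h ⊢
      have h1 := Pool.Agent.TH321.GF.AQ_pw v X hX h0 h
      rwa [PN_eq] at h1
  rw [mul_one_div]
  have : ‖AA X v‖ ≤ ‖z v‖ + ‖z v - AA X v‖ := by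
    have e : AA X v = z v - (z v - AA X v) := by ring
    calc ‖AA X v‖ = ‖z v - (z v - AA X v)‖ := by rw [← e]
      _ ≤ _ := norm_sub_le _ _
  linarith

lemma half_sum {T : ℝ} (hT : 0 ≤ T) (A : Finset ℝ) (hA : ∀ t ∈ A, 0 ≤ t ∧ t ≤ T)
    (hs : ∀ t ∈ A, ∀ u ∈ A, t ≠ u → 1 ≤ |t - u|) :
    ∑ t ∈ A, 1 / (1 + |t|) ≤ 1 + Real.log (T + 1) := by
  have hinj : Set.InjOn (fun t : ℝ => ⌊t⌋₊) (A : Set ℝ) := by
    intro a ha b hb hab
    simp only at hab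
    by_contra hne
    have h1 := hs a ha b hb hne
    have a0 := (hA a ha).1
    have b0 := (hA b hb).1
    have g1 := Nat.floor_le a0
    have g2 := Nat.lt_floor_add_one a
    have g3 := Nat.floor_le b0
    have g4 := Nat.lt_floor_add_one b
    rw [hab] at g1 g2
    have : |a - b| < 1 := by rw [abs_lt]; constructor <;> linarith
    linarith
  have h1 : ∑ t ∈ A, 1 / (1 + |t|) ≤ ∑ t ∈ A, 1 / ((⌊t⌋₊ : ℝ) + 1) := by
    refine sum_le_sum fun t ht => ?_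
    have t0 := (hA t ht).1
    rw [abs_of_nonneg t0]
    have := Nat.floor_le t0
    apply one_div_le_one_div_of_le (by positivity)
    linarith
  have h2 : ∑ t ∈ A, 1 / ((⌊t⌋₊ : ℝ) + 1) = ∑ m ∈ A.image (fun t : ℝ => ⌊t⌋₊), 1 / ((m : ℝ) + 1) := by
    rw [sum_image hinj]
  have h3 : A.image (fun t : ℝ => ⌊t⌋₊) ⊆ range (⌊T⌋₊ + 1) := by
    intro m hm
    rw [mem_image] at hm
    obtain ⟨t, ht, rfl⟩ := hm
    rw [mem_range]
    have := Nat.floor_le_floor (hA t ht).2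
    omega
  have h4 : ∑ m ∈ A.image (fun t : ℝ => ⌊t⌋₊), 1 / ((m : ℝ) + 1) ≤
      ∑ m ∈ range (⌊T⌋₊ + 1), 1 / ((m : ℝ) + 1) :=
    sum_le_sum_of_subset_of_nonneg h3 fun _ _ _ => by positivity
  have h5 : ∑ m ∈ range (⌊T⌋₊ + 1), 1 / ((m : ℝ) + 1) = ((harmonic (⌊T⌋₊ + 1) : ℚ) : ℝ) := by
    rw [harmonic]
    push_cast
    simp only [one_div]
  have h6 := harmonic_le_one_add_log (⌊T⌋₊ + 1)
  have h7 : Real.log ((⌊T⌋₊ + 1 : ℕ) : ℝ) ≤ Real.log (T + 1) := by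
    apply Real.log_le_log (by positivity)
    have := Nat.floor_le hT
    push_cast
    linarith
  linarith

lemma sep_sum {T : ℝ} (hT : 0 ≤ T) {S : Finset ℝ} {x : ℝ} (hS : WS S x T) {t : ℝ} (ht : t ∈ S) :
    ∑ t' ∈ S.erase t, 1 / (1 + |t - t'|) ≤ 2 * (1 + Real.log (T + 1)) := by
  classical
  set A := ((S.erase t).filter (fun t' => t < t')).image (fun t' => t' - t) with hA
  set B := ((S.erase t).filter (fun t' => ¬ t < t')).image (fun t' => t - t') with hB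
  have e := sum_filter_add_sum_filter_not (S.erase t) (fun t' => t < t') (fun t' => 1 / (1 + |t - t'|))
  have hb := hS.2 t ht
  have h1 : ∑ t' ∈ (S.erase t).filter (fun t' => t < t'), 1 / (1 + |t - t'|) = ∑ u ∈ A, 1 / (1 + |u|) := by
    rw [hA, sum_image (fun a _ b _ h => by simpa using h)]
    refine sum_congr rfl fun t' _ => ?_
    rw [abs_sub_comm]
  have h2 : ∑ t' ∈ (S.erase t).filter (fun t' => ¬ t < t'), 1 / (1 + |t - t'|) =
      ∑ u ∈ B, 1 / (1 + |u|) := by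
    rw [hB, sum_image (fun a _ b _ h => by simpa using h)]
  have h3 : ∑ u ∈ A, 1 / (1 + |u|) ≤ 1 + Real.log (T + 1) := by
    apply half_sum hT
    · intro u hu
      rw [hA, mem_image] at hu
      obtain ⟨t', ht', rfl⟩ := hu
      rw [mem_filter, mem_erase] at ht'
      have := hS.2 t' ht'.1.2
      constructor <;> linarith [ht'.2]
    · intro u hu v hv huv
      rw [hA, mem_image] at hu hv
      obtain ⟨t', ht', rfl⟩ := hu
      obtain ⟨t'', ht'', rfl⟩ := hv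
      rw [mem_filter, mem_erase] at ht' ht''
      have := hS.1 t' ht'.1.2 t'' ht''.1.2 (by rintro rfl; exact huv rfl)
      rwa [show t' - t - (t'' - t) = t' - t'' by ring]
  have h4 : ∑ u ∈ B, 1 / (1 + |u|) ≤ 1 + Real.log (T + 1) := by
    apply half_sum hT
    · intro u hu
      rw [hB, mem_image] at hu
      obtain ⟨t', ht', rfl⟩ := hu
      rw [mem_filter, mem_erase] at ht'
      have := hS.2 t' ht'.1.2
      constructor <;> linarith [not_lt.1 ht'.2]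
    · intro u hu v hv huv
      rw [hB, mem_image] at hu hv
      obtain ⟨t', ht', rfl⟩ := hu
      obtain ⟨t'', ht'', rfl⟩ := hv
      rw [mem_filter, mem_erase] at ht' ht''
      have := hS.1 t'' ht''.1.2 t' ht'.1.2 (by rintro rfl; exact huv rfl)
      rwa [show t - t' - (t - t'') = t'' - t' by ring]
  rw [h1, h2] at e
  linarith

lemma off_eq (S : Finset ℝ) (f : ℝ → ℝ → ℝ) :
    ∑ p ∈ S.offDiag, f p.1 p.2 = ∑ t ∈ S, ∑ t' ∈ S.erase t, f t t' := by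
  classical
  rw [sum_sigma']
  refine sum_bij' (fun p _ => ⟨p.1, p.2⟩) (fun p _ => (p.1, p.2)) ?_ ?_ ?_ ?_ ?_
  · intro p hp
    rw [mem_offDiag] at hp
    rw [mem_sigma, mem_erase]
    exact ⟨hp.1, fun h => hp.2.2 h.symm, hp.2.1⟩
  · intro p hp
    rw [mem_sigma, mem_erase] at hp
    rw [mem_offDiag]
    exact ⟨hp.1, hp.2.2, fun h => hp.2.1 h.symm⟩
  · intro p _; rfl
  · intro p _; rfl
  · intro p _; rfl

lemma Q_split (S : Finset ℝ) (φ : ℝ → ℂ) :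
    Q S φ = S.card * φ 0 + ∑ p ∈ S.offDiag, φ (p.1 - p.2) := by
  classical
  have h1 : Q S φ = ∑ p ∈ S ×ˢ S, φ (p.1 - p.2) := by
    unfold Q
    rw [← sum_product']
  rw [h1, ← diag_union_offDiag, sum_union (disjoint_diag_offDiag S), sum_diag]
  congr 1
  simp

lemma norm_AAk (N k : ℕ) (u : ℝ) :
    AA N u ^ k * (starRingEnd ℂ) (AA N u) ^ k = ((‖AA N u‖ ^ (2 * k) : ℝ) : ℂ) := by
  rw [← mul_pow, Complex.mul_conj, Complex.normSq_eq_norm_sq, pow_mul]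
  push_cast
  rfl

/-- **the core inequality** -/
theorem core {T : ℝ} (hT : 1 ≤ T) {S : Finset ℝ} {x : ℝ} (hS : WS S x T) {X N k : ℕ} (hk : 1 ≤ k)
    (hX : T ≤ X) (hN : 1 ≤ N) (hNX : N ≤ X) :
    VV N k * (S.card : ℝ) ^ 2 ≤ ∑ p ∈ S.offDiag, ‖AA N (p.1 - p.2)‖ ^ (2 * k) +
      S.card * (N : ℝ) ^ (2 * k) ∧
    VV N k * (S.card : ℝ) ^ 2 ≤ (S.card * ‖AA N 0‖ ^ (2 * k) +
      ∑ p ∈ S.offDiag, ‖AA N (p.1 - p.2)‖ ^ (2 * k)) ∧
    (S.card * ‖AA N 0‖ ^ (2 * k) + ∑ p ∈ S.offDiag, ‖AA N (p.1 - p.2)‖ ^ (2 * k)) ≤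
      ∑ p ∈ S.offDiag, ‖z (p.1 - p.2)‖ * ‖AA N (p.1 - p.2)‖ ^ (2 * k - 1) +
      (N : ℝ) ^ (2 * k - 1) * (2 * Real.sqrt X * S.card +
        6 * Real.sqrt X * S.card * (1 + Real.log (T + 1)) + 3 / (2 * Real.sqrt X) * (S.card : ℝ) ^ 2) := by
  classical
  set R : ℝ := (S.card : ℝ) with hR
  have hR0 : 0 ≤ R := Nat.cast_nonneg _
  have hX1 : 1 ≤ X := hN.trans hNX
  have hNr : (1 : ℝ) ≤ N := by exact_mod_cast hN
  have h1 := Q_lower S N k
  have h2 := basic S hNX hk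
  have e1 : Q S (fun u => AA N u ^ k * (starRingEnd ℂ) (AA N u) ^ k) =
      ((R * ‖AA N 0‖ ^ (2 * k) + ∑ p ∈ S.offDiag, ‖AA N (p.1 - p.2)‖ ^ (2 * k) : ℝ) : ℂ) := by
    rw [Q_split]
    simp only [norm_AAk]
    push_cast
    rfl
  rw [e1, Complex.ofReal_re] at h1 h2
  have hb0 := AA_norm N 0
  refine ⟨?_, h1, ?_⟩
  · have : R * ‖AA N 0‖ ^ (2 * k) ≤ R * (N : ℝ) ^ (2 * k) := by gcongr
    linarith
  refine h2.trans ?_
  rw [Q_split]
  refine (Complex.re_le_norm _).trans ((norm_add_le _ _).trans ?_)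
  have hnn : ∀ u, ‖AA X u * (AA N u ^ (k - 1) * (starRingEnd ℂ) (AA N u) ^ k)‖ =
      ‖AA X u‖ * ‖AA N u‖ ^ (2 * k - 1) := by
    intro u
    rw [norm_mul, norm_mul, norm_pow, norm_pow, RCLike.norm_conj, ← pow_add]
    congr 2
    omega
  have d1 : ‖(S.card : ℂ) * (AA X 0 * (AA N 0 ^ (k - 1) * (starRingEnd ℂ) (AA N 0) ^ k))‖ ≤
      (N : ℝ) ^ (2 * k - 1) * (2 * Real.sqrt X * R) := by
    rw [norm_mul, hnn, Complex.norm_natCast]
    have g1 := AA_norm' X 0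
    calc (S.card : ℝ) * (‖AA X 0‖ * ‖AA N 0‖ ^ (2 * k - 1)) ≤
          (S.card : ℝ) * ((2 * Real.sqrt X) * (N : ℝ) ^ (2 * k - 1)) := by gcongr
      _ = _ := by ring
  have d2 : ‖∑ p ∈ S.offDiag, AA X (p.1 - p.2) * (AA N (p.1 - p.2) ^ (k - 1) *
      (starRingEnd ℂ) (AA N (p.1 - p.2)) ^ k)‖ ≤
      ∑ p ∈ S.offDiag, (‖z (p.1 - p.2)‖ * ‖AA N (p.1 - p.2)‖ ^ (2 * k - 1) +
        (N : ℝ) ^ (2 * k - 1) * (3 * Real.sqrt X * (1 / (1 + |p.1 - p.2|)) + 3 / (2 * Real.sqrt X))) := by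
    refine norm_sum_le_of_le _ fun p hp => ?_
    rw [mem_offDiag] at hp
    rw [hnn]
    have g0 : p.1 - p.2 ≠ 0 := sub_ne_zero.2 hp.2.2
    have g1 : |p.1 - p.2| ≤ X := by
      have a1 := hS.2 _ hp.1
      have a2 := hS.2 _ hp.2.1
      rw [abs_le]
      constructor <;> linarith
    have g2 := approx g0 hX1 g1
    have g3 := AA_norm N (p.1 - p.2)
    have g4 : ‖AA N (p.1 - p.2)‖ ^ (2 * k - 1) ≤ (N : ℝ) ^ (2 * k - 1) :=
      pow_le_pow_left₀ (norm_nonneg _) g3 _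
    have g5 : 0 ≤ 3 * Real.sqrt X * (1 / (1 + |p.1 - p.2|)) + 3 / (2 * Real.sqrt X) := by positivity
    calc ‖AA X (p.1 - p.2)‖ * ‖AA N (p.1 - p.2)‖ ^ (2 * k - 1) ≤
          (‖z (p.1 - p.2)‖ + (3 * Real.sqrt X * (1 / (1 + |p.1 - p.2|)) + 3 / (2 * Real.sqrt X))) *
            ‖AA N (p.1 - p.2)‖ ^ (2 * k - 1) := by gcongr
      _ = ‖z (p.1 - p.2)‖ * ‖AA N (p.1 - p.2)‖ ^ (2 * k - 1) +
          ‖AA N (p.1 - p.2)‖ ^ (2 * k - 1) * (3 * Real.sqrt X * (1 / (1 + |p.1 - p.2|)) +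
            3 / (2 * Real.sqrt X)) := by ring
      _ ≤ _ := by gcongr
  have d3 : ∑ p ∈ S.offDiag, 1 / (1 + |p.1 - p.2|) ≤ R * (2 * (1 + Real.log (T + 1))) := by
    rw [off_eq S (fun t t' => 1 / (1 + |t - t'|))]
    calc ∑ t ∈ S, ∑ t' ∈ S.erase t, 1 / (1 + |t - t'|) ≤ ∑ t ∈ S, 2 * (1 + Real.log (T + 1)) :=
          sum_le_sum fun t ht => sep_sum (by linarith) hS ht
      _ = _ := by rw [sum_const, nsmul_eq_mul]
  have d4 : ((S.offDiag.card : ℕ) : ℝ) ≤ R ^ 2 := by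
    rw [offDiag_card]
    have : S.card * S.card - S.card ≤ S.card ^ 2 := by rw [pow_two]; omega
    rw [hR]
    exact_mod_cast this
  rw [sum_add_distrib, ← mul_sum, sum_add_distrib, ← mul_sum, sum_const, nsmul_eq_mul] at d2
  have hNp : 0 ≤ (N : ℝ) ^ (2 * k - 1) := by positivity
  have d5 : 3 * Real.sqrt X * ∑ p ∈ S.offDiag, 1 / (1 + |p.1 - p.2|) +
      ((S.offDiag.card : ℕ) : ℝ) * (3 / (2 * Real.sqrt X)) ≤
      6 * Real.sqrt X * R * (1 + Real.log (T + 1)) + 3 / (2 * Real.sqrt X) * R ^ 2 := by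
    have s0 : 0 ≤ Real.sqrt X := Real.sqrt_nonneg _
    have a1 : 3 * Real.sqrt X * ∑ p ∈ S.offDiag, 1 / (1 + |p.1 - p.2|) ≤
        3 * Real.sqrt X * (R * (2 * (1 + Real.log (T + 1)))) := by gcongr
    have a2 : ((S.offDiag.card : ℕ) : ℝ) * (3 / (2 * Real.sqrt X)) ≤ R ^ 2 * (3 / (2 * Real.sqrt X)) := by
      gcongr
    linarith
  have d6 := mul_le_mul_of_nonneg_left d5 hNp
  linarith

end Pool.Agent.X108.DS
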